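import Pool.Agent.W689.Mk.Star
import Pool.Agent.W689.Mk.Tube

/-!
# Visible sets of points in affine manifolds
-/

set_option autoImplicit false

open Set Filter Topology Metric

namespace Pool.Agent.X169.Vis

open Pool.Agent.W689.Mk (Ex Sec Geod sec_of_Ex exists_sec sec_of_target homeo_of_all)

section
variable {X E : Type} [TopologicalSpace X] [T2Space X] [NormedAddCommGroup E] [NormedSpace ℝ E]
  {dev : X → E}

theorem Ex_iff (hloc : IsLocalHomeomorph dev) {x y : X} {v : E} :
    Ex dev x v y ↔ ∃ c : ℝ → X, ContinuousOn c (Icc 0 1) ∧ c 0 = x ∧ c 1 = y ∧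
      ∀ t ∈ Icc (0 : ℝ) 1, dev (c t) = dev x + t • v := by
  have key : ∀ {y : X}, Ex dev x v y → ∃ c : ℝ → X, ContinuousOn c (Icc 0 1) ∧ c 0 = x ∧
      c 1 = y ∧ ∀ t ∈ Icc (0 : ℝ) 1, dev (c t) = dev x + t • v := by
    rintro y ⟨U, σ, h1, h2, h3, h4, h5⟩
    have hm : ∀ t ∈ Icc (0 : ℝ) 1, dev x + t • v ∈ U := by
      intro t ht
      have := h1.convex h2 h4 (a := 1 - t) (b := t) (by linarith [ht.2]) ht.1 (by ring)
      convert this using 1
      module
    refine ⟨fun t => σ (dev x + t • v), ?_, ?_, ?_, fun t ht => h1.inv _ (hm t ht)⟩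
    · exact h1.cont.comp (continuous_const.add
        (continuous_id.smul continuous_const)).continuousOn hm
    · simpa using h3
    · simpa using h5
  refine ⟨key, fun ⟨c, hc, hc0, hc1, hcd⟩ => ?_⟩
  obtain ⟨y', hy'⟩ := Pool.Agent.W689.Mk.Geod.ex hloc (x := x) (v := v) ⟨c, hc, hc0, hcd⟩
  obtain ⟨c', hc', hc0', hc1', hcd'⟩ := key hy'
  have h := (T2Space.isSeparatedMap dev).eqOn_of_comp_eqOn hloc.isLocallyInjective
    (isPreconnected_Icc (a := (0 : ℝ)) (b := 1)) hc hc'
    (fun t ht => by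
      show dev (c t) = dev (c' t)
      rw [hcd t ht, hcd' t ht])
    (a := 0) ⟨le_refl _, zero_le_one⟩ (hc0.trans hc0'.symm)
    (show (1 : ℝ) ∈ Icc (0 : ℝ) 1 from ⟨zero_le_one, le_refl _⟩)
  rw [hc1, hc1'] at h
  rw [h]
  exact hy'

/-- the visible set -/
def Vis (dev : X → E) (x : X) : Set X := {y | ∃ v, Ex dev x v y}

/-- the velocities of geodesics defined up to time one -/
def Dom (dev : X → E) (x : X) : Set E := {v | ∃ y, Ex dev x v y}

theorem ex_zero (hloc : IsLocalHomeomorph dev) (x : X) : Ex dev x 0 x := by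
  obtain ⟨e, r, hxe, he, hr, hrt⟩ := exists_sec hloc x
  have hτ := sec_of_target e he (dev x) r hrt
  have h0 : e.symm (dev x) = x := by rw [he]; exact e.left_inv hxe
  exact ⟨_, e.symm, hτ, mem_ball_self hr, h0, by rw [add_zero]; exact mem_ball_self hr,
    by rw [add_zero]; exact h0⟩

theorem mem_vis (hloc : IsLocalHomeomorph dev) (x : X) : x ∈ Vis dev x := ⟨0, ex_zero hloc x⟩

theorem isOpen_vis (hloc : IsLocalHomeomorph dev) (x : X) : IsOpen (Vis dev x) := by
  rw [isOpen_iff_mem_nhds]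
  rintro y ⟨v, U, σ, h1, h2, h3, h4, h5⟩
  have hop := h1.isOpen_image hloc h1.isOpen Subset.rfl
  refine mem_of_superset (hop.mem_nhds ⟨_, h4, h5⟩) ?_
  rintro _ ⟨q, hq, rfl⟩
  exact ⟨q - dev x, U, σ, h1, h2, h3, by rw [add_sub_cancel]; exact hq, by rw [add_sub_cancel]⟩

omit [T2Space X] in
theorem isOpen_dom (x : X) : IsOpen (Dom dev x) := by
  rw [isOpen_iff_mem_nhds]
  rintro v ⟨y, U, σ, h1, h2, h3, h4, h5⟩
  have hop : IsOpen ((fun w => dev x + w) ⁻¹' U) :=
    h1.isOpen.preimage (continuous_const.add continuous_id)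
  refine mem_of_superset (hop.mem_nhds h4) fun w hw => ⟨_, U, σ, h1, h2, h3, hw, rfl⟩

/-- convex domains of the exponential map have closed images -/
theorem isClosed_vis_of_convex (hloc : IsLocalHomeomorph dev) {x : X}
    (hconv : Convex ℝ (Dom dev x)) : IsClosed (Vis dev x) := by
  obtain ⟨σ, hσ, hσE⟩ := sec_of_Ex hloc (x := x) (isOpen_dom x) hconv (fun v hv => hv)
  have hW : ∀ v, v ∈ Dom dev x → dev x + v ∈ (fun q => q - dev x) ⁻¹' Dom dev x := by
    intro v hv
    show dev x + v - dev x ∈ Dom dev x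
    rwa [add_sub_cancel_left]
  have h0 : (0 : E) ∈ Dom dev x := ⟨x, ex_zero hloc x⟩
  have hσx : σ (dev x) = x := by
    have h1 := hσE 0 h0
    rw [add_zero] at h1
    exact (h1.unique hloc (ex_zero hloc x))
  refine isClosed_of_closure_subset fun z hz => ?_
  obtain ⟨e, r, hze, he, hr, hrt⟩ := exists_sec hloc z
  have hτ := sec_of_target e he (dev z) r hrt
  have hz0 : e.symm (dev z) = z := by rw [he]; exact e.left_inv hze
  have hop := hτ.isOpen_image hloc isOpen_ball Subset.rfl
  obtain ⟨y, ⟨q, hq, hqy⟩, v, hv⟩ := mem_closure_iff.1 hz _ hop ⟨_, mem_ball_self hr, hz0⟩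
  -- the section and the chart agree
  have hvD : v ∈ Dom dev x := ⟨y, hv⟩
  have hqv : q = dev x + v := by
    rw [← hv.dev_eq, ← hqy, hτ.inv q hq]
  have hqW : q ∈ (fun q => q - dev x) ⁻¹' Dom dev x := by rw [hqv]; exact hW v hvD
  have hagree : σ q = e.symm q := by
    rw [hqy, hqv]
    exact (hσE v hvD).unique hloc hv
  have heq := hσ.eqOn hloc hτ hqW hq hagree
  -- the end point is in the closure of the domain
  have hcl : dev z ∈ closure ((fun q => q - dev x) ⁻¹' Dom dev x) := by
    refine map_mem_closure hloc.continuous hz ?_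
    rintro y' ⟨v', hv'⟩
    rw [hv'.dev_eq]
    exact hW v' ⟨y', hv'⟩
  have hx0 : dev x ∈ interior ((fun q => q - dev x) ⁻¹' Dom dev x) := by
    rw [hσ.isOpen.interior_eq]
    have := hW 0 h0
    rwa [add_zero] at this
  have hseg : ∀ t : ℝ, 0 ≤ t → t < 1 →
      dev x + t • (dev z - dev x) ∈ (fun q => q - dev x) ⁻¹' Dom dev x := by
    intro t ht ht1
    have h1 := hσ.convex.combo_interior_closure_mem_interior hx0 hcl (a := 1 - t) (b := t)
      (by linarith) ht (by ring)
    have h2 := interior_subset h1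
    convert h2 using 1
    module
  classical
  let c : ℝ → X := fun t => if dev x + t • (dev z - dev x) ∈ ball (dev z) r then
    e.symm (dev x + t • (dev z - dev x)) else σ (dev x + t • (dev z - dev x))
  have hS : Continuous fun t : ℝ => dev x + t • (dev z - dev x) :=
    continuous_const.add (continuous_id.smul continuous_const)
  have hc1 : ∀ t : ℝ, dev x + t • (dev z - dev x) ∈ ball (dev z) r →
      c t = e.symm (dev x + t • (dev z - dev x)) := fun t ht => if_pos ht
  have hc2 : ∀ t : ℝ, dev x + t • (dev z - dev x) ∈ (fun q => q - dev x) ⁻¹' Dom dev x →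
      c t = σ (dev x + t • (dev z - dev x)) := by
    intro t ht
    by_cases hb : dev x + t • (dev z - dev x) ∈ ball (dev z) r
    · rw [hc1 t hb, heq _ ht hb]
    · exact if_neg hb
  have hone : dev x + (1 : ℝ) • (dev z - dev x) = dev z := by rw [one_smul, add_sub_cancel]
  have hcases : ∀ t ∈ Icc (0 : ℝ) 1, dev x + t • (dev z - dev x) ∈ ball (dev z) r ∨
      dev x + t • (dev z - dev x) ∈ (fun q => q - dev x) ⁻¹' Dom dev x := by
    intro t ht
    rcases eq_or_lt_of_le ht.2 with h1 | h1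
    · left
      rw [h1, hone]
      exact mem_ball_self hr
    · right
      exact hseg t ht.1 h1
  refine ⟨dev z - dev x, (Ex_iff hloc).2 ⟨c, ?_, ?_, ?_, ?_⟩⟩
  · intro t ht
    apply ContinuousAt.continuousWithinAt
    rcases hcases t ht with h1 | h1
    · have h2 : ContinuousAt (fun s : ℝ => e.symm (dev x + s • (dev z - dev x))) t :=
        ContinuousAt.comp (f := fun s : ℝ => dev x + s • (dev z - dev x)) (g := e.symm)
          ((hτ.cont _ h1).continuousAt (isOpen_ball.mem_nhds h1)) hS.continuousAt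
      refine h2.congr ?_
      filter_upwards [hS.continuousAt.preimage_mem_nhds (isOpen_ball.mem_nhds h1)] with s hs
      exact (hc1 s hs).symm
    · have h2 : ContinuousAt (fun s : ℝ => σ (dev x + s • (dev z - dev x))) t :=
        ContinuousAt.comp (f := fun s : ℝ => dev x + s • (dev z - dev x)) (g := σ)
          ((hσ.cont _ h1).continuousAt (hσ.isOpen.mem_nhds h1)) hS.continuousAt
      refine h2.congr ?_
      filter_upwards [hS.continuousAt.preimage_mem_nhds (hσ.isOpen.mem_nhds h1)] with s hs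
      exact (hc2 s hs).symm
  · have h1 := hc2 0 (hseg 0 le_rfl zero_lt_one)
    rw [h1, zero_smul, add_zero, hσx]
  · have h1 := hc1 1 (by rw [hone]; exact mem_ball_self hr)
    rw [h1, hone, hz0]
  · intro t ht
    rcases hcases t ht with h1 | h1
    · rw [hc1 t h1, hτ.inv _ h1]
    · rw [hc2 t h1, hσ.inv _ h1]

theorem vis_univ [PreconnectedSpace X] (hloc : IsLocalHomeomorph dev) {x : X}
    (hcl : IsClosed (Vis dev x)) : Vis dev x = univ :=
  IsClopen.eq_univ ⟨hcl, isOpen_vis hloc x⟩ ⟨x, mem_vis hloc x⟩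

omit [T2Space X] in
theorem dom_univ (hh : IsHomeomorph dev) (x : X) : Dom dev x = univ := by
  ext v
  refine ⟨fun _ => trivial, fun _ => ?_⟩
  let e := hh.homeomorph
  refine ⟨_, univ, e.symm, ⟨isOpen_univ, convex_univ, e.symm.continuous.continuousOn,
    fun p _ => e.apply_symm_apply p⟩, trivial, e.symm_apply_apply x, trivial, rfl⟩

theorem vis_of_homeo (hh : IsHomeomorph dev) (x : X) : Vis dev x = univ := by
  ext y
  refine ⟨fun _ => trivial, fun _ => ?_⟩
  have h1 : dev y - dev x ∈ Dom dev x := by rw [dom_univ hh x]; trivial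
  obtain ⟨z, hz⟩ := h1
  have h2 := hz.dev_eq
  rw [add_sub_cancel] at h2
  have h3 := hh.injective h2
  rw [← h3]
  exact ⟨_, hz⟩

/-- the developed visible set is star-shaped -/
theorem star_dom (x : X) :
    StarConvex ℝ (dev x) (dev '' Vis dev x) := by
  rintro _ ⟨y, ⟨v, hv⟩, rfl⟩ a b ha hb hab
  have hd := hv.dev_eq
  obtain ⟨U, σ, h1, h2, h3, h4, h5⟩ := hv
  have hm := h1.convex h2 h4 ha hb hab
  rw [← hd] at hm
  refine ⟨σ (a • dev x + b • dev y), ?_, h1.inv _ hm⟩
  exact ⟨a • dev x + b • dev y - dev x, U, σ, h1, h2, h3,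
    by rw [add_sub_cancel]; exact hm, by rw [add_sub_cancel]⟩

end

end Pool.Agent.X169.Vis
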